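import Pool.Agent.H.MP_5aaff8_an.C

set_option autoImplicit false

open MeasureTheory Set Filter Topology
open scoped ContDiff

namespace Pool.Agent.Results.MP_5aaff8_an.No

/-- `u` lies in `W^{1,2}(Ω; ℝ²)` and `D` is its weak differential. -/
def IsSobolev (Ω : Set (ℝ × ℝ)) (u : ℝ × ℝ → EuclideanSpace ℝ (Fin 2))
    (D : ℝ × ℝ → Matrix (Fin 2) (Fin 2) ℝ) : Prop :=
  (∀ i, MemLp (fun x => u x i) 2 (volume.restrict Ω)) ∧
  (∀ i j, MemLp (fun x => D x i j) 2 (volume.restrict Ω)) ∧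
  ∀ i, ∀ φ : ℝ × ℝ → ℝ, ContDiff ℝ ∞ φ → HasCompactSupport φ → tsupport φ ⊆ Ω →
    (∫ x in Ω, fderiv ℝ φ x (1, 0) * u x i = -∫ x in Ω, φ x * D x i 0) ∧
    (∫ x in Ω, fderiv ℝ φ x (0, 1) * u x i = -∫ x in Ω, φ x * D x i 1)

/-- The Dirichlet energy on `W`. -/
noncomputable def energy (W : Set (ℝ × ℝ)) (D : ℝ × ℝ → Matrix (Fin 2) (Fin 2) ℝ) : ℝ :=
  ∫ x in W, ∑ i, ∑ j, D x i j ^ 2

/-- `u`, with weak differential `D`, is a minimizing constraint map on `Ω` for the target `M`. -/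
def IsMinimizing (Ω : Set (ℝ × ℝ)) (M : Set (EuclideanSpace ℝ (Fin 2)))
    (u : ℝ × ℝ → EuclideanSpace ℝ (Fin 2)) (D : ℝ × ℝ → Matrix (Fin 2) (Fin 2) ℝ) : Prop :=
  IsSobolev Ω u D ∧ (∀ᵐ x ∂volume.restrict Ω, u x ∈ closure M) ∧
  ∀ W : Set (ℝ × ℝ), IsOpen W → IsCompact (closure W) → closure W ⊆ Ω →
    ∀ (v : ℝ × ℝ → EuclideanSpace ℝ (Fin 2)) (E : ℝ × ℝ → Matrix (Fin 2) (Fin 2) ℝ),
      IsSobolev Ω v E → (∀ᵐ x ∂volume.restrict Ω, v x ∈ closure M) →
      (∀ᵐ x ∂volume.restrict (Ω \ W), v x = u x) → energy W D ≤ energy W E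

open Pool.Agent.H.MP_5aaff8_an

lemma clos (y : EuclideanSpace ℝ (Fin 2)) :
    y ∈ closure (Metric.closedBall (0 : EuclideanSpace ℝ (Fin 2)) 1)ᶜ ↔ 1 ≤ y 0 ^ 2 + y 1 ^ 2 := by
  rw [closure_compl, interior_closedBall _ one_ne_zero, mem_compl_iff, mem_ball_zero_iff, not_lt,
    EuclideanSpace.norm_eq, Real.one_le_sqrt]
  simp

lemma en (W : Set (ℝ × ℝ)) (hW : W ⊆ O) (D : ℝ × ℝ → Matrix (Fin 2) (Fin 2) ℝ)
    (h : ∀ i j, MemLp (fun x => D x i j) 2 (volume.restrict O)) :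
    energy W D = ((∫ x in W, D x 0 0 ^ 2) + ∫ x in W, D x 0 1 ^ 2) +
      ((∫ x in W, D x 1 0 ^ 2) + ∫ x in W, D x 1 1 ^ 2) := by
  have k : ∀ i j, Integrable (fun x => D x i j ^ 2) (volume.restrict W) := fun i j =>
    IntegrableOn.mono_set (h i j).integrable_sq hW
  rw [energy, integral_finsetSum _ fun i _ => integrable_finsetSum _ fun j _ => k i j]
  simp only [Fin.sum_univ_two]
  rw [integral_add (k _ _) (k _ _), integral_add (k _ _) (k _ _)]

theorem result : ∃ M : Set (EuclideanSpace ℝ (Fin 2)), M = (Metric.closedBall 0 1)ᶜ ∧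
    IsOpen M ∧ IsConnected M ∧ frontier M = Metric.sphere 0 1 ∧ Convex ℝ Mᶜ ∧
    ∃ (Ω : Set (ℝ × ℝ)) (u : ℝ × ℝ → EuclideanSpace ℝ (Fin 2))
      (D : ℝ × ℝ → Matrix (Fin 2) (Fin 2) ℝ), IsOpen Ω ∧ IsConnected Ω ∧ IsMinimizing Ω M u D ∧
      (∃ U, IsOpen U ∧ U.Nonempty ∧ U ⊆ Ω ∧ ∀ x ∈ U, (D x).rank ≤ 1) ∧
      (∃ V, IsOpen V ∧ V.Nonempty ∧ V ⊆ Ω ∧ ∀ x ∈ V, (D x).rank = 2) := by
  have c2 := ch_cont
  have c3 := sh_cont
  refine ⟨_, rfl, Metric.isClosed_closedBall.isOpen_compl, ?_, ?_, ?_, O,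
    fun z => !₂[Real.cos z.1 * ch z.2, Real.sin z.1 * ch z.2],
    fun z => !![-Real.sin z.1 * ch z.2, Real.cos z.1 * sh z.2;
      Real.cos z.1 * ch z.2, Real.sin z.1 * sh z.2], Oo,
    (isConnected_Ioo (by norm_num)).prod (isConnected_Ioo (by norm_num)), ?_, ?_, ?_⟩
  · have h := ((isConnected_Ioi (a := (1 : ℝ))).prod (isConnected_sphere (E := EuclideanSpace ℝ
      (Fin 2)) (by rw [← Module.finrank_eq_rank]; simp) 0 zero_le_one)).image
      (fun p => p.1 • p.2) continuous_smul.continuousOn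
    convert h using 1
    ext y
    simp only [mem_compl_iff, mem_closedBall_zero_iff, not_le, mem_image, mem_prod, mem_Ioi,
      mem_sphere_zero_iff_norm, Prod.exists]
    constructor
    · intro hy
      have h0 : ‖y‖ ≠ 0 := by linarith
      refine ⟨‖y‖, ‖y‖⁻¹ • y, ⟨hy, ?_⟩, smul_inv_smul₀ h0 y⟩
      rw [norm_smul, norm_inv, norm_norm, inv_mul_cancel₀ h0]
    · rintro ⟨a, b, ⟨h1, h2⟩, rfl⟩
      rw [norm_smul, h2, mul_one]
      exact h1.trans_le (le_abs_self a)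
  · rw [frontier_compl, frontier_closedBall _ one_ne_zero]
  · rw [compl_compl]
    exact convex_closedBall _ _
  · have hm : ∀ i j, MemLp (fun z : ℝ × ℝ => !![-Real.sin z.1 * ch z.2, Real.cos z.1 * sh z.2;
        Real.cos z.1 * ch z.2, Real.sin z.1 * sh z.2] i j) 2 (volume.restrict O) := by
      intro i j
      fin_cases i <;> fin_cases j <;> exact cmem _ (by simp only [Fin.zero_eta, Fin.mk_one, Matrix.of_apply, Matrix.cons_val', Matrix.cons_val_zero, Matrix.cons_val_one, Matrix.cons_val_fin_one]; fun_prop)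
    have hs : ∀ x, HasDerivAt (fun x => -Real.sin x) (-Real.cos x) x := fun x =>
      (Real.hasDerivAt_sin x).neg
    refine ⟨⟨fun i => ?_, hm, fun i φ h1 h2 h3 => ?_⟩, Eventually.of_forall fun z => ?_,
      fun W hW hK hKO v E hv hvM h0 => ?_⟩
    · fin_cases i
      · exact cmem (fun z => Real.cos z.1 * ch z.2) (by fun_prop)
      · exact cmem (fun z => Real.sin z.1 * ch z.2) (by fun_prop)
    · fin_cases i
      · exact ⟨weak0 _ _ Real.hasDerivAt_cos (by fun_prop) φ h1 h2 h3,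
          weak1 _ Real.continuous_cos φ h1 h2 h3⟩
      · exact ⟨weak0 _ _ Real.hasDerivAt_sin (by fun_prop) φ h1 h2 h3,
          weak1 _ Real.continuous_sin φ h1 h2 h3⟩
    · rw [clos]
      have h1 : 1 ≤ ch z.2 := Real.one_le_cosh _
      have h2 := Real.cos_sq_add_sin_sq z.1
      change 1 ≤ (Real.cos z.1 * ch z.2) ^ 2 + (Real.sin z.1 * ch z.2) ^ 2
      rw [mul_pow, mul_pow, ← add_mul, h2]
      nlinarith
    · obtain ⟨a1, a2⟩ := comp Real.cos (fun x => -Real.sin x) Real.hasDerivAt_cos hs hW hK hKO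
        (fun x => v x 0) (fun x => E x 0 0) (fun x => E x 0 1) (hv.1 0) (hv.2.1 0 0) (hv.2.1 0 1)
        (fun φ h1 h2 h3 => (hv.2.2 0 φ h1 h2 h3).1) (fun φ h1 h2 h3 => (hv.2.2 0 φ h1 h2 h3).2)
        (h0.mono fun z hz => by rw [hz]; rfl)
      obtain ⟨b1, b2⟩ := comp Real.sin Real.cos Real.hasDerivAt_sin Real.hasDerivAt_cos hW hK hKO
        (fun x => v x 1) (fun x => E x 1 0) (fun x => E x 1 1) (hv.1 1) (hv.2.1 1 0) (hv.2.1 1 1)
        (fun φ h1 h2 h3 => (hv.2.2 1 φ h1 h2 h3).1) (fun φ h1 h2 h3 => (hv.2.2 1 φ h1 h2 h3).2)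
        (h0.mono fun z hz => by rw [hz]; rfl)
      have hWO := subset_closure.trans hKO
      have h3 := integral_add a1 b1
      have h4 := h3 ▸ integral_nonneg_of_ae (μ := volume) (f := fun z : ℝ × ℝ =>
          (W.indicator (fun x => v x 0 - Real.cos x.1 * ch x.2) z ^ 2 +
            2 * ((ch z.2 - (Ioi 0).indicator Real.cosh z.2) * Real.cos z.1 *
            W.indicator (fun x => v x 0 - Real.cos x.1 * ch x.2) z)) +
          (W.indicator (fun x => v x 1 - Real.sin x.1 * ch x.2) z ^ 2 +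
            2 * ((ch z.2 - (Ioi 0).indicator Real.cosh z.2) * Real.sin z.1 *
            W.indicator (fun x => v x 1 - Real.sin x.1 * ch x.2) z))) (by
        rw [ae_restrict_iff' Oo.measurableSet] at hvM
        filter_upwards [hvM] with z hz
        by_cases hzW : z ∈ W
        · have h5 := (clos _).1 (hz (hWO hzW))
          simp only [indicator_of_mem hzW, Pi.zero_apply]
          by_cases hy : 0 < z.2
          · rw [indicator_of_mem (show z.2 ∈ Ioi 0 from hy), show ch z.2 = Real.cosh z.2 by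
              rw [ch, max_eq_left hy.le], sub_self]
            simp only [zero_mul, mul_zero, add_zero]
            positivity
          · rw [indicator_of_notMem (show z.2 ∉ Ioi 0 from hy), show ch z.2 = 1 by
              rw [ch, max_eq_right (not_lt.1 hy), Real.cosh_zero]]
            nlinarith [Real.cos_sq_add_sin_sq z.1]
        · simp [indicator_of_notMem hzW])
      rw [en W hWO _ hm, en W hWO _ hv.2.1]
      change ((∫ z in W, (-Real.sin z.1 * ch z.2) ^ 2) + ∫ z in W, (Real.cos z.1 * sh z.2) ^ 2) +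
        ((∫ z in W, (Real.cos z.1 * ch z.2) ^ 2) + ∫ z in W, (Real.sin z.1 * sh z.2) ^ 2) ≤ _
      linarith
  · refine ⟨Ioo (-1 / 2) (1 / 2) ×ˢ Ioo (-1 / 2) 0, isOpen_Ioo.prod isOpen_Ioo,
      ⟨(0, -1 / 4), by norm_num⟩, prod_mono le_rfl (Ioo_subset_Ioo_right (by norm_num)),
      fun z hz => ?_⟩
    have h : sh z.2 = 0 := by rw [sh, max_eq_right hz.2.2.le, Real.sinh_zero]
    convert Matrix.rank_vecMulVec_le ![-Real.sin z.1 * ch z.2, Real.cos z.1 * ch z.2]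
      (![1, 0] : Fin 2 → ℝ) using 2
    ext i j
    fin_cases i <;> fin_cases j <;> simp [h, Matrix.vecMulVec]
  · refine ⟨Ioo (-1 / 2) (1 / 2) ×ˢ Ioo 0 (1 / 2), isOpen_Ioo.prod isOpen_Ioo,
      ⟨(0, 1 / 4), by norm_num⟩, prod_mono le_rfl (Ioo_subset_Ioo_left (by norm_num)),
      fun z hz => ?_⟩
    have h : 0 < sh z.2 := by
      rw [sh, max_eq_left hz.2.1.le]
      exact Real.sinh_pos_iff.2 hz.2.1
    have h1 : 0 < ch z.2 := Real.cosh_pos _
    refine (Matrix.rank_of_det_ne_zero ?_).trans (by simp)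
    rw [Matrix.det_fin_two_of]
    have h2 := Real.cos_sq_add_sin_sq z.1
    have : -Real.sin z.1 * ch z.2 * (Real.sin z.1 * sh z.2) -
        Real.cos z.1 * sh z.2 * (Real.cos z.1 * ch z.2) = -(ch z.2 * sh z.2) := by
      linear_combination (-(ch z.2 * sh z.2)) * h2
    rw [this]
    exact neg_ne_zero.2 (mul_pos h1 h).ne'

end Pool.Agent.Results.MP_5aaff8_an.No
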